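import Mathlib
import Pool.Agent.Results.MP_49e939_nt.TwoAdicValuation

/-!
# Divisibility of the self-convolution of `C(6k,3k) C(3k,k)`

For every `n ≥ 1` the number `8 (2n-1) C(3n,n)` divides `∑_{j=0}^n a_j a_{n-j}`,
`a_k = C(6k,3k) C(3k,k)`.

The number `(2n-1) C(3n,n)` divides every single summand (Guo's theorem; Legendre's formula, level
by level, with a compensation between the levels for the prime `3`), and the quotient of the whole
sum by it is divisible by `8` (`MP_49e939_nt/TwoAdicValuation`).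
-/

set_option autoImplicit false

namespace Pool.Agent.Results.MP_cbedb1_nt.SelfConvolution

open Finset

/-- `a_k = C(6k, 3k) C(3k, k)`. -/
def a (k : ℕ) : ℕ := (6 * k).choose (3 * k) * (3 * k).choose k

/-- the self-convolution `S_n = ∑_{j=0}^n a_j a_{n-j}`. -/
def S (n : ℕ) : ℕ := ∑ j ∈ range (n + 1), a j * a (n - j)

/-! ### arithmetic of the digits -/

lemma pure_le (A B Z : ℕ) (h : Z = A + B ∨ Z = A + B + 1) :
    A / 2 + A / 3 + A / 6 + (B / 2 + B / 3 + B / 6) + Z / 2 ≤ A + B + Z / 6 + Z / 3 := by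
  obtain ⟨x, u, hx, rfl⟩ : ∃ x u, x < 6 ∧ A = 6 * u + x := ⟨A % 6, A / 6, by omega, by omega⟩
  obtain ⟨y, v, hy, rfl⟩ : ∃ y v, y < 6 ∧ B = 6 * v + y := ⟨B % 6, B / 6, by omega, by omega⟩
  rcases h with rfl | rfl <;> interval_cases x <;> interval_cases y <;> omega

lemma pure_lt (A B Z m : ℕ) (hm : m % 2 = 1) (hZ : Z = 3 * m) (h : Z = A + B ∨ Z = A + B + 1) :
    A / 2 + A / 3 + A / 6 + (B / 2 + B / 3 + B / 6) + Z / 2 + 1 ≤ A + B + Z / 6 + Z / 3 := by
  obtain ⟨x, u, hx, rfl⟩ : ∃ x u, x < 6 ∧ A = 6 * u + x := ⟨A % 6, A / 6, by omega, by omega⟩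
  obtain ⟨y, v, hy, rfl⟩ : ∃ y v, y < 6 ∧ B = 6 * v + y := ⟨B % 6, B / 6, by omega, by omega⟩
  rcases h with rfl | rfl <;> interval_cases x <;> interval_cases y <;> omega

lemma pure_two (A B Z m c : ℕ) (hm : m % 2 = 1) (hZ : Z = 3 * m) (h : Z = A + B) (hA : A = 2 * c)
    (hc : c % 3 ≠ 0) :
    A / 2 + A / 3 + A / 6 + (B / 2 + B / 3 + B / 6) + Z / 2 + 2 ≤ A + B + Z / 6 + Z / 3 := by
  obtain ⟨x, u, hx, rfl⟩ : ∃ x u, x < 6 ∧ A = 6 * u + x := ⟨A % 6, A / 6, by omega, by omega⟩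
  obtain ⟨y, v, hy, rfl⟩ : ∃ y v, y < 6 ∧ B = 6 * v + y := ⟨B % 6, B / 6, by omega, by omega⟩
  subst h
  interval_cases x <;> interval_cases y <;> omega

lemma pure_one (A B Z c : ℕ) (h2 : Z % 2 = 1) (h3 : Z % 3 ≠ 0) (h : Z = A + B) (hA : A = 2 * c) :
    A / 2 + A / 3 + A / 6 + (B / 2 + B / 3 + B / 6) + Z / 2 + 1 ≤ A + B + Z / 6 + Z / 3 := by
  obtain ⟨x, u, hx, rfl⟩ : ∃ x u, x < 6 ∧ A = 6 * u + x := ⟨A % 6, A / 6, by omega, by omega⟩
  obtain ⟨y, v, hy, rfl⟩ : ∃ y v, y < 6 ∧ B = 6 * v + y := ⟨B % 6, B / 6, by omega, by omega⟩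
  subst h
  interval_cases x <;> interval_cases y <;> omega

/-! ### the levels of Legendre's formula -/

section level

/-- the level `q` of the valuation of the numerator -/
def up (q k l : ℕ) : ℕ := 6 * k / q + 6 * l / q + (k + l) / q + 2 * (k + l) / q

/-- the level `q` of the valuation of the denominator -/
def dn (q k l : ℕ) : ℕ :=
  3 * k / q + 2 * k / q + k / q + (3 * l / q + 2 * l / q + l / q) + 3 * (k + l) / q

variable {q k l : ℕ}

lemma div_six (q m : ℕ) : m / q = 6 * m / q / 6 := by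
  rw [Nat.div_div_eq_div_mul, mul_comm q 6, Nat.mul_div_mul_left _ _ (by norm_num)]

lemma div_three (q m : ℕ) : 2 * m / q = 6 * m / q / 3 := by
  rw [Nat.div_div_eq_div_mul, mul_comm q 3, show 6 * m = 3 * (2 * m) by ring,
    Nat.mul_div_mul_left _ _ (by norm_num)]

lemma div_two (q m : ℕ) : 3 * m / q = 6 * m / q / 2 := by
  rw [Nat.div_div_eq_div_mul, mul_comm q 2, show 6 * m = 2 * (3 * m) by ring,
    Nat.mul_div_mul_left _ _ (by norm_num)]

lemma up_eq (q k l : ℕ) : up q k l =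
    6 * k / q + 6 * l / q + 6 * (k + l) / q / 6 + 6 * (k + l) / q / 3 := by
  unfold up
  rw [div_six q (k + l), div_three q (k + l)]

lemma dn_eq (q k l : ℕ) : dn q k l =
    6 * k / q / 2 + 6 * k / q / 3 + 6 * k / q / 6 +
      (6 * l / q / 2 + 6 * l / q / 3 + 6 * l / q / 6) + 6 * (k + l) / q / 2 := by
  unfold dn
  rw [div_two q (k + l), div_six q k, div_three q k,
    div_two q k, div_six q l, div_three q l, div_two q l]

lemma sum_cases (hq : 0 < q) : 6 * (k + l) / q = 6 * k / q + 6 * l / q ∨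
    6 * (k + l) / q = 6 * k / q + 6 * l / q + 1 := by
  rw [mul_add, Nat.add_div hq]
  split_ifs <;> simp

lemma dn_le_up (hq : 0 < q) : dn q k l ≤ up q k l := by
  rw [up_eq, dn_eq]
  exact pure_le _ _ _ (sum_cases hq)

lemma six_mul_div {m : ℕ} (hq : 3 < q) (h : 2 * (k + l) = q * m + 1) :
    6 * (k + l) / q = 3 * m := by
  have : 6 * (k + l) = 3 + q * (3 * m) := by
    have : 6 * (k + l) = 3 * (2 * (k + l)) := by ring
    rw [this, h]; ring
  rw [this, Nat.add_mul_div_left _ _ (by omega), Nat.div_eq_of_lt hq, zero_add]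

lemma odd_cofactor {m : ℕ} (h : 2 * (k + l) = q * m + 1) : m % 2 = 1 := by
  by_contra hne
  obtain ⟨j, rfl⟩ : ∃ j, m = 2 * j := ⟨m / 2, by omega⟩
  have : q * (2 * j) = 2 * (q * j) := by ring
  omega

/-- the levels `q > 3` which divide `2n - 1` -/
lemma dn_lt_up {m : ℕ} (hq : 3 < q) (h : 2 * (k + l) = q * m + 1) : dn q k l + 1 ≤ up q k l := by
  rw [up_eq, dn_eq]
  exact pure_lt _ _ _ m (odd_cofactor h) (six_mul_div hq h) (sum_cases (by omega))

/-- level `3`, `k ≡ l ≡ 1` -/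
lemma dn_lt_up_three (hk : k % 3 = 1) (hl : l % 3 = 1) : dn 3 k l + 1 ≤ up 3 k l := by
  unfold dn up
  omega

lemma exact_div {c : ℕ} (hq : 0 < q) (hk : 6 * k = q * c) :
    6 * k / q = c ∧ 6 * (k + l) / q = 6 * k / q + 6 * l / q := by
  have h1 : 6 * k / q = c := by rw [hk, Nat.mul_div_cancel_left _ hq]
  refine ⟨h1, ?_⟩
  rw [h1, mul_add, hk, Nat.mul_add_div hq]

/-- an extra unit: `q ∣ 2n - 1`, `q = 3^(t+1)`, `3^t` exactly divides `k`, `t ≥ 1`. -/
lemma dn_add_two {m c : ℕ} (hq : 3 < q) (h : 2 * (k + l) = q * m + 1) (hk : 6 * k = q * (2 * c))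
    (hc : c % 3 ≠ 0) : dn q k l + 2 ≤ up q k l := by
  obtain ⟨e1, e2⟩ := exact_div (l := l) (by omega : 0 < q) hk
  rw [up_eq, dn_eq]
  exact pure_two _ _ _ m c (odd_cofactor h) (six_mul_div hq h) e2 e1 hc

/-- an extra unit: `q = 3^(s+1)`, `3^s` divides `k`, `3^s` exactly divides `2n - 1`, `s ≥ 1`. -/
lemma dn_add_one' {m c : ℕ} (hq : 3 < q) (h : 6 * (k + l) = q * m + 3) (hk : 6 * k = q * (2 * c))
    (hm2 : m % 2 = 1) (hm3 : m % 3 ≠ 0) : dn q k l + 1 ≤ up q k l := by
  have hz : 6 * (k + l) / q = m := by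
    rw [h, Nat.mul_add_div (by omega), Nat.div_eq_of_lt hq, add_zero]
  obtain ⟨e1, e2⟩ := exact_div (l := l) (by omega : 0 < q) hk
  rw [up_eq, dn_eq]
  exact pure_one _ _ _ c (by rw [hz]; exact hm2) (by rw [hz]; exact hm3) e2 e1

end level

/-! ### the sum over the levels -/

lemma dn_symm (q k l : ℕ) : dn q k l = dn q l k := by
  unfold dn
  rw [add_comm l k]; ring

lemma up_symm (q k l : ℕ) : up q k l = up q l k := by
  unfold up
  rw [add_comm l k]; ring

/-- the indicator function of `q ∣ 2n - 1` -/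
def ind (q n : ℕ) : ℕ := if q ∣ 2 * n - 1 then 1 else 0

lemma term_le {q k l : ℕ} (hn : 1 ≤ k + l) (hq : 3 < q) :
    dn q k l + ind q (k + l) ≤ up q k l := by
  unfold ind
  split_ifs with h
  · obtain ⟨m, hm⟩ := h
    exact dn_lt_up hq (m := m) (by omega)
  · exact dn_le_up (by omega)

lemma sum_le_of_term {p k l b : ℕ}
    (h : ∀ i ∈ Ico 1 b, dn (p ^ i) k l + ind (p ^ i) (k + l) ≤ up (p ^ i) k l) :
    ∑ i ∈ Ico 1 b, dn (p ^ i) k l + ∑ i ∈ Ico 1 b, ind (p ^ i) (k + l) ≤
      ∑ i ∈ Ico 1 b, up (p ^ i) k l := by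
  rw [← Finset.sum_add_distrib]
  exact Finset.sum_le_sum h

lemma sum_le_of_extra {k l b i₀ : ℕ} (hn : 1 ≤ k + l) (h2 : 2 ≤ i₀) (hb : i₀ < b)
    (h0 : dn (3 ^ i₀) k l + ind (3 ^ i₀) (k + l) + 1 ≤ up (3 ^ i₀) k l) :
    ∑ i ∈ Ico 1 b, dn (3 ^ i) k l + ∑ i ∈ Ico 1 b, ind (3 ^ i) (k + l) ≤
      ∑ i ∈ Ico 1 b, up (3 ^ i) k l := by
  have h3 : ∑ i ∈ Ico 1 b, (dn (3 ^ i) k l + ind (3 ^ i) (k + l) + (if i = i₀ then 1 else 0)) ≤
      ∑ i ∈ Ico 1 b, (up (3 ^ i) k l + (if i = 1 then 1 else 0)) := by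
    refine Finset.sum_le_sum fun i hi => ?_
    rw [mem_Ico] at hi
    by_cases hi0 : i = i₀
    · subst hi0
      rw [if_pos rfl, if_neg (by omega)]
      omega
    · rw [if_neg hi0]
      by_cases hi1 : i = 1
      · subst hi1
        rw [if_pos rfl]
        have e1 : dn (3 ^ 1) k l ≤ up (3 ^ 1) k l := dn_le_up (by norm_num)
        have e2 : ind (3 ^ 1) (k + l) ≤ 1 := by unfold ind; split_ifs <;> omega
        omega
      · rw [if_neg hi1]
        have : 3 < 3 ^ i := by
          calc 3 < 3 ^ 2 := by norm_num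
            _ ≤ 3 ^ i := Nat.pow_le_pow_right (by norm_num) (by omega)
        have := term_le hn this
        omega
  rw [Finset.sum_add_distrib, Finset.sum_add_distrib, Finset.sum_add_distrib,
    Finset.sum_ite_eq', Finset.sum_ite_eq', if_pos (mem_Ico.2 ⟨by omega, hb⟩),
    if_pos (mem_Ico.2 ⟨le_rfl, by omega⟩)] at h3
  omega

/-- the case `3 ∣ k` of the prime `3` -/
lemma sum_three {k l b : ℕ} (hn : 1 ≤ k + l) (hk : 3 ∣ k) (h3 : 3 ∣ 2 * (k + l) - 1)
    (hb : 2 * (k + l) < b) :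
    ∑ i ∈ Ico 1 b, dn (3 ^ i) k l + ∑ i ∈ Ico 1 b, ind (3 ^ i) (k + l) ≤
      ∑ i ∈ Ico 1 b, up (3 ^ i) k l := by
  have hne : 2 * (k + l) - 1 ≠ 0 := by omega
  obtain ⟨s, m, hm3, hm⟩ := Nat.exists_eq_pow_mul_and_not_dvd hne 3 (by norm_num)
  have hs1 : 1 ≤ s := by
    by_contra h
    have h0 : s = 0 := by omega
    subst h0
    rw [pow_zero, one_mul] at hm
    exact hm3 (hm ▸ h3)
  have hmodd : m % 2 = 1 := by
    by_contra hne
    obtain ⟨j, rfl⟩ : ∃ j, m = 2 * j := ⟨m / 2, by omega⟩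
    have : 3 ^ s * (2 * j) = 2 * (3 ^ s * j) := by ring
    omega
  have hmpos : 1 ≤ m := by omega
  have hslt : s < b := by
    have h1 : s < 3 ^ s := Nat.lt_pow_self (by norm_num)
    have h2 : 3 ^ s ≤ 3 ^ s * m := Nat.le_mul_of_pos_right _ hmpos
    omega
  have hs1b : s + 1 < b := by
    have h1 : s < 3 ^ s := Nat.lt_pow_self (by norm_num)
    have h2 : 3 ^ s ≤ 3 ^ s * m := Nat.le_mul_of_pos_right _ hmpos
    omega
  by_cases hd : 3 ^ s ∣ k
  · -- level `s + 1`
    obtain ⟨c, hc⟩ := hd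
    refine sum_le_of_extra (i₀ := s + 1) hn (by omega) hs1b ?_
    have hnd : ¬ 3 ^ (s + 1) ∣ 2 * (k + l) - 1 := by
      rintro ⟨j, hj⟩
      apply hm3
      rw [hm, pow_succ, mul_assoc] at hj
      exact ⟨j, Nat.eq_of_mul_eq_mul_left (by positivity) hj⟩
    have hind : ind (3 ^ (s + 1)) (k + l) = 0 := by unfold ind; rw [if_neg hnd]
    rw [hind, add_zero]
    refine dn_add_one' (m := m) (c := c) ?_ ?_ ?_ hmodd (by omega)
    · calc 3 < 3 ^ 2 := by norm_num
        _ ≤ 3 ^ (s + 1) := Nat.pow_le_pow_right (by norm_num) (by omega)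
    · have : 6 * (k + l) = 3 * (2 * (k + l) - 1) + 3 := by omega
      rw [this, hm, pow_succ]; ring
    · rw [hc, pow_succ]; ring
  · -- level `t + 1`, `3^t` exactly divides `k`
    have hk0 : k ≠ 0 := fun h => hd (by rw [h]; exact dvd_zero _)
    obtain ⟨t, c, hc3, hc⟩ := Nat.exists_eq_pow_mul_and_not_dvd hk0 3 (by norm_num)
    have ht1 : 1 ≤ t := by
      by_contra h
      have h0 : t = 0 := by omega
      subst h0
      rw [pow_zero, one_mul] at hc
      exact hc3 (hc ▸ hk)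
    have hts : t < s := by
      by_contra h
      apply hd
      rw [hc]
      exact Dvd.dvd.mul_right (pow_dvd_pow 3 (by omega)) c
    refine sum_le_of_extra (i₀ := t + 1) hn (by omega) (by omega) ?_
    have hdv : 3 ^ (t + 1) ∣ 2 * (k + l) - 1 := by
      rw [hm]
      exact Dvd.dvd.mul_right (pow_dvd_pow 3 (by omega)) m
    have hind : ind (3 ^ (t + 1)) (k + l) = 1 := by unfold ind; rw [if_pos hdv]
    rw [hind]
    obtain ⟨m', hm'⟩ := hdv
    refine dn_add_two (m := m') (c := c) ?_ (by omega) ?_ (by omega)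
    · calc 3 < 3 ^ 2 := by norm_num
        _ ≤ 3 ^ (t + 1) := Nat.pow_le_pow_right (by norm_num) (by omega)
    · rw [hc, pow_succ]; ring

lemma sum_level {p k l b : ℕ} (hp : p.Prime) (hn : 1 ≤ k + l) (hb : 2 * (k + l) < b) :
    ∑ i ∈ Ico 1 b, dn (p ^ i) k l + ∑ i ∈ Ico 1 b, ind (p ^ i) (k + l) ≤
      ∑ i ∈ Ico 1 b, up (p ^ i) k l := by
  by_cases hp3 : p = 3
  · subst hp3
    by_cases h3 : 3 ∣ 2 * (k + l) - 1
    · by_cases hk : 3 ∣ k
      · exact sum_three hn hk h3 hb
      · by_cases hl : 3 ∣ l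
        · have := sum_three (k := l) (l := k) (b := b) (by omega) hl
            (by rw [add_comm]; exact h3) (by omega)
          simp only [dn_symm _ l k, up_symm _ l k, add_comm l k] at this
          exact this
        · apply sum_le_of_term
          intro i hi
          rw [mem_Ico] at hi
          by_cases hi1 : i = 1
          · subst hi1
            have := dn_lt_up_three (k := k) (l := l) (by omega) (by omega)
            have e2 : ind (3 ^ 1) (k + l) ≤ 1 := by unfold ind; split_ifs <;> omega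
            rw [pow_one] at e2 ⊢
            omega
          · apply term_le hn
            calc 3 < 3 ^ 2 := by norm_num
              _ ≤ 3 ^ i := Nat.pow_le_pow_right (by norm_num) (by omega)
    · apply sum_le_of_term
      intro i hi
      rw [mem_Ico] at hi
      have hnd : ¬ 3 ^ i ∣ 2 * (k + l) - 1 := fun h =>
        h3 ((dvd_pow_self 3 (by omega)).trans h)
      have hind : ind (3 ^ i) (k + l) = 0 := by unfold ind; rw [if_neg hnd]
      rw [hind, add_zero]
      exact dn_le_up (by positivity)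
  · apply sum_le_of_term
    intro i hi
    rw [mem_Ico] at hi
    by_cases hp2 : p = 2
    · subst hp2
      have hnd : ¬ 2 ^ i ∣ 2 * (k + l) - 1 := fun h => by
        have := (dvd_pow_self 2 (by omega : i ≠ 0)).trans h
        omega
      have hind : ind (2 ^ i) (k + l) = 0 := by unfold ind; rw [if_neg hnd]
      rw [hind, add_zero]
      exact dn_le_up (by positivity)
    · apply term_le hn
      have h2 := hp.two_le
      calc 3 < p := by omega
        _ = p ^ 1 := (pow_one p).symm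
        _ ≤ p ^ i := Nat.pow_le_pow_right (by omega) hi.1

/-! ### factorials -/

lemma a_mul (k : ℕ) : a k * ((3 * k).factorial * (2 * k).factorial * k.factorial) =
    (6 * k).factorial := by
  have h1 := Nat.choose_mul_factorial_mul_factorial (show 3 * k ≤ 6 * k by omega)
  have h2 := Nat.choose_mul_factorial_mul_factorial (show k ≤ 3 * k by omega)
  rw [show 6 * k - 3 * k = 3 * k by omega] at h1
  rw [show 3 * k - k = 2 * k by omega] at h2
  unfold a
  calc (6 * k).choose (3 * k) * (3 * k).choose k *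
        ((3 * k).factorial * (2 * k).factorial * k.factorial) =
      (6 * k).choose (3 * k) * (3 * k).factorial *
        ((3 * k).choose k * k.factorial * (2 * k).factorial) := by ring
    _ = _ := by rw [h2, h1]

lemma fact_dvd {k l : ℕ} (hn : 1 ≤ k + l) :
    (2 * (k + l) - 1) * ((3 * (k + l)).factorial *
      (((3 * k).factorial * (2 * k).factorial * k.factorial) *
        ((3 * l).factorial * (2 * l).factorial * l.factorial))) ∣
      (6 * k).factorial * (6 * l).factorial * (k + l).factorial * (2 * (k + l)).factorial := by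
  have hne : 2 * (k + l) - 1 ≠ 0 := by omega
  have f (m : ℕ) : m.factorial ≠ 0 := m.factorial_ne_zero
  rw [← Nat.factorization_prime_le_iff_dvd
    (by
      refine mul_ne_zero hne (mul_ne_zero (f _) (mul_ne_zero ?_ ?_)) <;>
        exact mul_ne_zero (mul_ne_zero (f _) (f _)) (f _))
    (mul_ne_zero (mul_ne_zero (mul_ne_zero (f _) (f _)) (f _)) (f _))]
  intro p hp
  obtain ⟨b, hb⟩ : ∃ b, b = 6 * (k + l) + 2 := ⟨_, rfl⟩
  have hlog : ∀ m, m ≤ 6 * (k + l) → m.factorial.factorization p = ∑ i ∈ Ico 1 b, m / p ^ i := by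
    intro m hm
    refine Nat.factorization_factorial hp ?_
    have := Nat.log_le_self p m
    omega
  have hv : (2 * (k + l) - 1).factorization p = ∑ i ∈ Ico 1 b, ind (p ^ i) (k + l) := by
    rw [Nat.factorization_eq_card_pow_dvd_of_lt hp (by omega : 0 < 2 * (k + l) - 1)
      (b := b) (lt_of_lt_of_le (by omega : 2 * (k + l) - 1 < b) (Nat.lt_pow_self hp.one_lt).le)]
    rw [Finset.card_filter]
    rfl
  have key := sum_level (b := b) hp hn (by omega)
  rw [Nat.factorization_mul hne (mul_ne_zero (f _) (mul_ne_zero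
      (mul_ne_zero (mul_ne_zero (f _) (f _)) (f _)) (mul_ne_zero (mul_ne_zero (f _) (f _)) (f _)))),
    Nat.factorization_mul (f _) (mul_ne_zero
      (mul_ne_zero (mul_ne_zero (f _) (f _)) (f _)) (mul_ne_zero (mul_ne_zero (f _) (f _)) (f _))),
    Nat.factorization_mul (mul_ne_zero (mul_ne_zero (f _) (f _)) (f _))
      (mul_ne_zero (mul_ne_zero (f _) (f _)) (f _)),
    Nat.factorization_mul (mul_ne_zero (f _) (f _)) (f _),
    Nat.factorization_mul (f _) (f _),
    Nat.factorization_mul (mul_ne_zero (f _) (f _)) (f _),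
    Nat.factorization_mul (f _) (f _),
    Nat.factorization_mul (mul_ne_zero (mul_ne_zero (f _) (f _)) (f _)) (f _),
    Nat.factorization_mul (mul_ne_zero (f _) (f _)) (f _),
    Nat.factorization_mul (f _) (f _)]
  simp only [Finsupp.add_apply]
  rw [hv, hlog _ (by omega), hlog _ (by omega), hlog _ (by omega), hlog _ (by omega),
    hlog _ (by omega), hlog _ (by omega), hlog _ (by omega), hlog _ (by omega), hlog _ (by omega),
    hlog _ (by omega), hlog _ (by omega)]
  simp only [dn, up, Finset.sum_add_distrib] at key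
  omega

/-- Guo's theorem: `(2n-1) C(3n,n)` divides each summand. -/
theorem term_dvd {k l : ℕ} (hn : 1 ≤ k + l) :
    (2 * (k + l) - 1) * (3 * (k + l)).choose (k + l) ∣ a k * a l := by
  have h := fact_dvd hn
  have h3 := Nat.choose_mul_factorial_mul_factorial (show (k + l) ≤ 3 * (k + l) by omega)
  rw [show 3 * (k + l) - (k + l) = 2 * (k + l) by omega] at h3
  rw [← h3, ← a_mul k, ← a_mul l] at h
  obtain ⟨D, hD⟩ : ∃ D, D = ((3 * k).factorial * (2 * k).factorial * k.factorial) *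
    ((3 * l).factorial * (2 * l).factorial * l.factorial) * ((k + l).factorial *
      (2 * (k + l)).factorial) := ⟨_, rfl⟩
  have hDpos : 0 < D := by rw [hD]; positivity
  refine Nat.dvd_of_mul_dvd_mul_right hDpos ?_
  convert h using 1
  · rw [hD]; ring
  · rw [hD]; ring

theorem result : ∀ n : ℕ, 1 ≤ n → 8 * (2 * n - 1) * (3 * n).choose n ∣ S n := by
  intro n hn
  have h1 : (2 * n - 1) * (3 * n).choose n ∣ S n := by
    unfold S
    refine Finset.dvd_sum fun j hj => ?_
    rw [mem_range] at hj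
    obtain ⟨l, rfl⟩ : ∃ l, n = j + l := ⟨n - j, by omega⟩
    rw [Nat.add_sub_cancel_left]
    exact term_dvd hn
  obtain ⟨z, hz⟩ := h1
  have hc : 0 < (3 * n).choose n := Nat.choose_pos (by omega)
  have ha : MP_49e939_nt.TwoAdicValuation.a n = ((z : ℤ) : ℚ) := by
    have hS : ∑ k ∈ range (n + 1), ((MP_49e939_nt.TwoAdicValuation.t k : ℚ) *
        (MP_49e939_nt.TwoAdicValuation.t (n - k) : ℚ)) = ((S n : ℕ) : ℚ) := by
      unfold S
      push_cast
      rfl
    unfold MP_49e939_nt.TwoAdicValuation.a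
    rw [hS, hz]
    push_cast [Nat.cast_sub (show 1 ≤ 2 * n by omega)]
    have e1 : (2 * (n : ℚ) - 1) ≠ 0 := by
      have : (1 : ℚ) ≤ n := by exact_mod_cast hn
      linarith
    have e2 : (((3 * n).choose n : ℕ) : ℚ) ≠ 0 := by exact_mod_cast hc.ne'
    field_simp
  have h8 := ((MP_49e939_nt.TwoAdicValuation.result n hn).2 _ ha).1
  have h8' : 8 ∣ z := by exact_mod_cast h8
  obtain ⟨w, rfl⟩ := h8'
  exact ⟨w, by rw [hz]; ring⟩


end Pool.Agent.Results.MP_cbedb1_nt.SelfConvolution
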